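import Pool.Agent.Q253.Host.Main
import Pool.Agent.Q253.Cov.DensM
import Pool.Agent.Q253.Cov.APd

/-!
# Progressions of multipliers and of primes in intervals of length `x ^ (1 / 2 - δ)`
-/

set_option autoImplicit false

namespace Pool.Agent.Q253.Host

open Finset Filter
open Pool.Agent.W76.MO
open Pool.Agent.Q253.Cov
open Pool.Agent.Y843.HS (Pr VV Pr_mem Pr_prime)
open Pool.Agent.Y843.HG (V1 V1_bounds)
open Pool.Agent.Q253.Thin (SysZ)

/-- Narrow progressions in dense sets of rough numbers -/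
theorem ap_rough (k : ℕ) (θ c : ℝ) (hθ : 0 < θ) (hθ1 : θ ≤ 1) (hc : 0 < c) : ∃ D X₀ : ℕ, ∀ X : ℕ, X₀ ≤ X →
    ∀ A : ℕ, ∀ S : Finset ℕ, S ⊆ Ioc A (A + X) → (∀ n ∈ S, ∀ p : ℕ, p.Prime → (p : ℝ) ≤ (X : ℝ) ^ θ → ¬ p ∣ n) →
    c * X / Real.log X ≤ (S.card : ℝ) → ∃ a d : ℕ, 1 ≤ d ∧ (d : ℝ) ≤ Real.log X ^ D ∧ ∀ j < k, a + j * d ∈ S := by
  obtain ⟨c₀, C, _, hC, hV⟩ := V1_bounds
  obtain ⟨D, X₀, H⟩ := ap_dense k 1 θ (c / C) hθ hθ1 (by positivity)
  refine ⟨D, max X₀ 2, fun X hX A S hS hr hcard => ?_⟩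
  have hX2 : 2 ≤ X := (le_max_right _ _).trans hX
  have hXr : (2 : ℝ) ≤ X := by exact_mod_cast hX2
  have hlog : 0 < Real.log X := Real.log_pos (by linarith)
  apply H X ((le_max_left _ _).trans hX) (fun _ => {0}) ?_ A S hS ?_ ?_
  · refine ⟨fun p _ => by simp, fun p hp => ?_, fun p hp c hc => ?_⟩
    · rw [card_singleton]
      exact hp.one_lt
    · rw [mem_singleton] at hc
      rw [hc]
      exact hp.pos
  · intro n hn p hp hpX
    rw [mem_singleton]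
    intro h
    exact hr n hn p hp hpX (Nat.dvd_of_mod_eq_zero h)
  · have h1 : VV (fun _ => {0}) 0 X = V1 X := by
      unfold VV V1
      apply prod_congr rfl
      intro p _
      rw [card_singleton]
      norm_num
    rw [h1]
    refine le_trans ?_ hcard
    calc c / C * (X * V1 X) ≤ c / C * (X * (C / Real.log X)) := by
          apply mul_le_mul_of_nonneg_left _ (by positivity)
          exact mul_le_mul_of_nonneg_left (hV X hX2).2 (by positivity)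
      _ = c * X / Real.log X := by field_simp

/-- a dense dyadic block -/
theorem dyadic {G : Finset ℕ} {c₂ : ℝ} {j : ℕ} (hc : 0 < c₂) (hj : 1 ≤ j) (hG : ∀ m ∈ G, 1 ≤ m ∧ m < 2 ^ (j + 1))
    (h : c₂ ≤ ∑ m ∈ G, (1 : ℝ) / m) : ∃ u : ℕ, u ≤ j ∧ c₂ / (2 * j) * 2 ^ u ≤ ((G.filter (fun m => Nat.log 2 m = u)).card : ℝ) := by
  classical
  by_contra hcon
  push Not at hcon
  have hj0 : (0 : ℝ) < j := by exact_mod_cast hj
  have h1 : ∑ m ∈ G, (1 : ℝ) / m = ∑ u ∈ range (j + 1), ∑ m ∈ G.filter (fun m => Nat.log 2 m = u), (1 : ℝ) / m := by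
    rw [sum_fiberwise_of_maps_to]
    intro m hm
    rw [mem_range]
    obtain ⟨m1, m2⟩ := hG m hm
    exact (Nat.log_lt_iff_lt_pow (by norm_num) (by omega)).2 m2
  have h2 : ∀ u ∈ range (j + 1), ∑ m ∈ G.filter (fun m => Nat.log 2 m = u), (1 : ℝ) / m < c₂ / (2 * j) := by
    intro u hu
    have h3 := hcon u (by rw [mem_range] at hu; omega)
    have h4 : ∑ m ∈ G.filter (fun m => Nat.log 2 m = u), (1 : ℝ) / m ≤
        ∑ m ∈ G.filter (fun m => Nat.log 2 m = u), (1 : ℝ) / 2 ^ u := by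
      apply sum_le_sum
      intro m hm
      rw [mem_filter] at hm
      obtain ⟨m1, m2⟩ := hG m hm.1
      apply one_div_le_one_div_of_le (by positivity)
      have : 2 ^ u ≤ m := by
        rw [← hm.2]
        exact Nat.pow_log_le_self 2 (by omega)
      exact_mod_cast this
    rw [sum_const, nsmul_eq_mul] at h4
    refine lt_of_le_of_lt h4 ?_
    rw [mul_one_div, div_lt_iff₀ (by positivity)]
    exact h3
  have h5 : ∑ m ∈ G, (1 : ℝ) / m < ∑ _u ∈ range (j + 1), c₂ / (2 * j) := by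
    rw [h1]
    exact sum_lt_sum_of_nonempty ⟨0, mem_range.2 (by omega)⟩ h2
  rw [sum_const, card_range, nsmul_eq_mul] at h5
  have h6 : ((j + 1 : ℕ) : ℝ) * (c₂ / (2 * j)) ≤ c₂ := by
    push_cast
    rw [mul_div_assoc', div_le_iff₀ (by positivity)]
    have : (1 : ℝ) ≤ j := by exact_mod_cast hj
    nlinarith
  linarith

/-- **Progressions.** -/
theorem main_ap : ∃ δ : ℝ, 0 < δ ∧ δ ≤ 1 / 16 ∧ ∀ k : ℕ, ∃ D : ℕ, ∃ x₀ : ℝ, ∀ x H : ℝ, x₀ ≤ x → x ^ (1 / 2 - δ) ≤ H → H ≤ x →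
    ∃ m d : ℕ, 1 ≤ d ∧ (d : ℝ) ≤ Real.log x ^ D ∧ ∀ i < k, 2 ≤ m + i * d ∧ Squarefree (m + i * d) ∧ Good δ x H (m + i * d) ∧
      ∃ q e : ℕ, 1 ≤ e ∧ (e : ℝ) ≤ Real.log x ^ D ∧ ∀ l < k, (q + l * e).Prime ∧ x < ((m + i * d) * (q + l * e) : ℕ) ∧
        (((m + i * d) * (q + l * e) : ℕ) : ℝ) ≤ x + H := by
  classical
  obtain ⟨τ₀, γ, δ₁, c₁, c₂, hτ₀, hγ, hδ₁, hδτ₀, hδ8, hc₁, hc₂, e, he, j₀, H0⟩ := host_rich
  obtain ⟨τ, hτ⟩ : ∃ τ : ℝ, τ = min τ₀ (1 / 4) := ⟨_, rfl⟩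
  have hτ0 : 0 < τ := by rw [hτ]; positivity
  have hτ4 : τ ≤ 1 / 4 := by rw [hτ]; exact min_le_right _ _
  have hττ : τ ≤ τ₀ := by rw [hτ]; exact min_le_left _ _
  obtain ⟨ν, hν⟩ : ∃ ν : ℝ, ν = τ₀ - δ₁ := ⟨_, rfl⟩
  have hν0 : 0 < ν := by rw [hν]; linarith
  obtain ⟨δ, hδ⟩ : ∃ δ : ℝ, δ = min (min (τ / 4) (γ / 4)) (min (c₁ / 12) (δ₁ / 2)) := ⟨_, rfl⟩
  have hd0 : 0 < δ := by rw [hδ]; positivity
  have hd1 : δ ≤ τ / 4 := by rw [hδ]; exact (min_le_left _ _).trans (min_le_left _ _)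
  have hd2 : δ ≤ γ / 4 := by rw [hδ]; exact (min_le_left _ _).trans (min_le_right _ _)
  have hd3 : δ ≤ c₁ / 12 := by rw [hδ]; exact (min_le_right _ _).trans (min_le_left _ _)
  have hd4 : δ ≤ δ₁ / 2 := by rw [hδ]; exact (min_le_right _ _).trans (min_le_right _ _)
  refine ⟨δ, hd0, by linarith, fun k => ?_⟩
  have hl2 : 0 < Real.log 2 := Real.log_pos (by norm_num)
  have hl21 : Real.log 2 ≤ 1 := by have := Real.log_two_lt_d9; linarith
  obtain ⟨θ, hθ⟩ : ∃ θ : ℝ, θ = min (γ / 2) 1 := ⟨_, rfl⟩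
  have hθ0 : 0 < θ := by rw [hθ]; positivity
  have hθ1 : θ ≤ 1 := by rw [hθ]; exact min_le_right _ _
  have hθγ : θ ≤ γ / 2 := by rw [hθ]; exact min_le_left _ _
  obtain ⟨D₁, X₁, hap1⟩ := ap_rough k θ (c₂ * γ * Real.log 2 / 4) hθ0 hθ1 (by positivity)
  obtain ⟨D₂, X₂, hap2⟩ := ap_rough k (1 / 2) (c₁ * ν * Real.log 2 / 4) (by norm_num) (by norm_num) (by positivity)
  -- large x
  have hlarge : ∀ᶠ x : ℝ in atTop, 16 ≤ x ∧ 16 ≤ x ^ (δ₁ / 2) ∧ 4 ≤ x ^ (τ / 2) ∧ (2 : ℝ) ^ (j₀ + 1) ≤ x ∧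
      8 / ν ≤ Real.log x ∧ 8 / γ ≤ Real.log x ∧ (X₁ : ℝ) ≤ γ * Real.log x / 4 ∧ (X₂ : ℝ) ≤ ν * Real.log x / 4 := by
    have hll := Real.tendsto_log_atTop
    filter_upwards [eventually_ge_atTop 16, (tendsto_rpow_atTop (show 0 < δ₁ / 2 by positivity)).eventually_ge_atTop 16,
      (tendsto_rpow_atTop (show 0 < τ / 2 by positivity)).eventually_ge_atTop 4, eventually_ge_atTop ((2 : ℝ) ^ (j₀ + 1)),
      hll.eventually_ge_atTop (8 / ν), hll.eventually_ge_atTop (8 / γ), hll.eventually_ge_atTop (4 * X₁ / γ),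
      hll.eventually_ge_atTop (4 * X₂ / ν)] with x h1 h2 h3 h4 h5 h6 h7 h8
    refine ⟨h1, h2, h3, h4, h5, h6, ?_, ?_⟩
    · rw [div_le_iff₀ hγ] at h7
      linarith
    · rw [div_le_iff₀ hν0] at h8
      linarith
  obtain ⟨x₀, hx₀⟩ := eventually_atTop.1 hlarge
  refine ⟨max D₁ D₂, x₀, fun x H hx hH hHx => ?_⟩
  obtain ⟨x1, x2, x3, x4, x5, x6, x7, x8⟩ := hx₀ x hx
  have hx0 : 0 < x := by linarith
  have hH0 : 0 < H := lt_of_lt_of_le (by positivity) hH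
  have hlx1 : 1 ≤ Real.log x := by
    have h1 := Real.log_le_log (by norm_num) x1
    have h2 : Real.log 16 = 4 * Real.log 2 := by
      rw [show (16 : ℝ) = 2 ^ 4 by norm_num, Real.log_pow]
      norm_num
    have := Real.log_two_gt_d9
    linarith
  have hpowD : ∀ D' : ℕ, D' ≤ max D₁ D₂ → ∀ X : ℕ, 2 ≤ X → (X : ℝ) ≤ x → Real.log X ^ D' ≤ Real.log x ^ max D₁ D₂ := by
    intro D' hD' X hX2 hXx
    have h1 : 0 ≤ Real.log X := Real.log_nonneg (by exact_mod_cast (by omega : 1 ≤ X))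
    have h2 : Real.log X ≤ Real.log x := Real.log_le_log (by exact_mod_cast (by omega : 0 < X)) hXx
    exact (pow_le_pow_left₀ h1 h2 _).trans (pow_le_pow_right₀ hlx1 hD')
  obtain ⟨j, a, L, hL, ha, hb, hxa, hbx, hl, h2, h3⟩ := choose_scale hδ₁ hδ8 hd4 (by linarith) x2 hH hHx
  have hj₀ : j₀ ≤ j := by
    have h4 : (2 : ℝ) ^ (j₀ + 1) < 2 ^ (j + 1) := lt_of_le_of_lt x4 h3
    have h5 := (pow_lt_pow_iff_right₀ (by norm_num : (1 : ℝ) < 2)).1 h4
    omega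
  have hjlog : Real.log x ≤ (j + 1) * Real.log 2 := by
    have := Real.log_le_log hx0 h3.le
    rw [Real.log_pow] at this
    push_cast at this
    exact this
  have hj1 : Real.log x ≤ j + 1 := by nlinarith [Nat.cast_nonneg (α := ℝ) j]
  have hj3 : 3 ≤ j := by
    have h4 : (16 : ℝ) < 2 ^ (j + 1) := lt_of_le_of_lt x1 h3
    have h5 : (2 : ℝ) ^ 4 < 2 ^ (j + 1) := by norm_num at h4 ⊢; exact h4
    have h6 := (pow_lt_pow_iff_right₀ (by norm_num : (1 : ℝ) < 2)).1 h5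
    omega
  have hj3r : (3 : ℝ) ≤ j := by exact_mod_cast hj3
  have hj0 : (0 : ℝ) < j := by linarith
  have hjl : Real.log x ≤ 2 * j := by linarith
  obtain ⟨κ, hκ⟩ : ∃ κ, κ = Nat.log 2 j := ⟨_, rfl⟩
  have hk1 : 2 ^ κ ≤ j := by rw [hκ]; exact Nat.pow_log_le_self 2 (by omega)
  have hk2 : j < 2 ^ (κ + 1) := by rw [hκ]; exact Nat.lt_pow_succ_log_self (by norm_num) _
  obtain ⟨G, hG⟩ : ∃ G, G = Gm τ₀ γ c₁ e κ j a (a + L * hh δ₁ j) := ⟨_, rfl⟩
  have hsum := H0 j hj₀ a L hL ha hb κ hk1 hk2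
  rw [← hG] at hsum
  obtain ⟨b, hbb⟩ : ∃ b, b = a + L * hh δ₁ j := ⟨_, rfl⟩
  have hba : b - a = L * hh δ₁ j := by omega
  have hab : a ≤ b := by omega
  rw [← hbb] at hG hbx hb
  rw [← hba] at hl
  -- members of G
  have hGm : ∀ m ∈ G, 2 ≤ m ∧ Squarefree m ∧ (m : ℝ) ≤ 2 * 2 ^ ((1 / 2 - τ₀) * j) ∧ Rough ((2 : ℝ) ^ (γ * j)) m ∧
      c₁ * (((b - a : ℕ) : ℝ) / m) / j ≤ (((Ioc (a / m) (b / m) : Finset ℕ).filter Nat.Prime).card : ℝ) := by
    intro m hm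
    rw [hG] at hm
    unfold Gm at hm
    rw [mem_filter] at hm
    obtain ⟨h4, h5, h6, h7⟩ := hm
    obtain ⟨m1, _, m3, _⟩ := mem_Rz.1 h4
    exact ⟨m1, m3, h5, h6, h7⟩
  have hmj : ∀ m ∈ G, m < 2 ^ (j + 1) := by
    intro m hm
    have h4 := (hGm m hm).2.2.1
    have h5 : (2 : ℝ) ^ ((1 / 2 - τ₀) * j) < 2 ^ (j : ℝ) := by
      apply Real.rpow_lt_rpow_of_exponent_lt (by norm_num)
      nlinarith
    rw [Real.rpow_natCast] at h5
    have h6 : (m : ℝ) < 2 ^ (j + 1) := by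
      rw [pow_succ]
      linarith
    exact_mod_cast h6
  obtain ⟨u, huj, hucard⟩ := dyadic hc₂ (by omega) (fun m hm => ⟨by have := (hGm m hm).1; omega, hmj m hm⟩) hsum
  obtain ⟨S, hS⟩ : ∃ S, S = G.filter (fun m => Nat.log 2 m = u) := ⟨_, rfl⟩
  rw [← hS] at hucard
  have hSpos : 0 < S.card := by
    have : (0 : ℝ) < S.card := lt_of_lt_of_le (by positivity) hucard
    exact_mod_cast this
  obtain ⟨m₀, hm₀⟩ := card_pos.1 hSpos
  have hSG : ∀ m ∈ S, m ∈ G ∧ 2 ^ u ≤ m ∧ m < 2 ^ (u + 1) := by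
    intro m hm
    rw [hS, mem_filter] at hm
    have h4 := (hGm m hm.1).1
    refine ⟨hm.1, ?_, ?_⟩
    · rw [← hm.2]
      exact Nat.pow_log_le_self 2 (by omega)
    · rw [← hm.2]
      exact Nat.lt_pow_succ_log_self (by norm_num) _
  -- the lower bound for u
  have hulow : γ * j ≤ u + 1 := by
    obtain ⟨g1, g2, g3⟩ := hSG m₀ hm₀
    obtain ⟨h4, _, _, h6, _⟩ := hGm m₀ g1
    obtain ⟨p, hp, hpm⟩ := Nat.exists_prime_and_dvd (show m₀ ≠ 1 by omega)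
    have h7 := h6 p hp hpm
    have h8 : (p : ℝ) ≤ m₀ := by exact_mod_cast Nat.le_of_dvd (by omega) hpm
    have h9 : (m₀ : ℝ) < 2 ^ (u + 1) := by exact_mod_cast g3
    have h10 : (2 : ℝ) ^ (γ * j) < 2 ^ ((u : ℝ) + 1) := by
      have : (2 : ℝ) ^ ((u : ℝ) + 1) = 2 ^ (u + 1) := by
        rw [show ((u : ℝ) + 1) = ((u + 1 : ℕ) : ℝ) by push_cast; ring, Real.rpow_natCast]
      rw [this]
      linarith
    exact ((Real.rpow_lt_rpow_left_iff (by norm_num)).1 h10).le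
  have hγj : 4 ≤ γ * j := by
    have h4 := x6
    rw [div_le_iff₀ hγ] at h4
    nlinarith
  have hu2 : γ * j / 2 ≤ u := by linarith
  have huX : X₁ ≤ 2 ^ u := by
    have h4 : (X₁ : ℝ) ≤ u := by
      have : γ * Real.log x / 4 ≤ γ * j / 2 := by nlinarith
      linarith
    have h5 : X₁ ≤ u := by exact_mod_cast h4
    exact h5.trans Nat.lt_two_pow_self.le
  have hu1 : 1 ≤ u := by
    have : (2 : ℝ) ≤ u := by linarith
    exact_mod_cast (by linarith : (1 : ℝ) ≤ u)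
  obtain ⟨m, d, hd1', hdD, hmS⟩ := hap1 (2 ^ u) huX (2 ^ u - 1) S (by
    intro n hn
    obtain ⟨_, g2, g3⟩ := hSG n hn
    rw [mem_Ioc]
    have : 1 ≤ 2 ^ u := Nat.one_le_two_pow
    rw [pow_succ] at g3
    omega) (by
    intro n hn p hp hpX hpn
    obtain ⟨g1, _, _⟩ := hSG n hn
    have h6 := (hGm n g1).2.2.2.1 p hp hpn
    have h7 : (((2 ^ u : ℕ) : ℝ)) ^ θ < 2 ^ (γ * j) := by
      push_cast
      rw [← Real.rpow_natCast, ← Real.rpow_mul (by norm_num)]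
      apply Real.rpow_lt_rpow_of_exponent_lt (by norm_num)
      have : (u : ℝ) ≤ j := by exact_mod_cast huj
      nlinarith
    linarith) (by
    have hlogu : Real.log ((2 ^ u : ℕ) : ℝ) = u * Real.log 2 := by
      push_cast
      rw [Real.log_pow]
    rw [hlogu]
    refine le_trans ?_ hucard
    have hu0 : (0 : ℝ) < u := by exact_mod_cast hu1
    push_cast
    calc c₂ * γ * Real.log 2 / 4 * 2 ^ u / (u * Real.log 2) = c₂ * γ / 4 * 2 ^ u / u := by field_simp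
      _ ≤ c₂ * γ / 4 * 2 ^ u / (γ * j / 2) := div_le_div_of_nonneg_left (by positivity) (by positivity) hu2
      _ = c₂ / (2 * j) * 2 ^ u := by field_simp; ring)
  have hux : ((2 ^ u : ℕ) : ℝ) ≤ x := by
    obtain ⟨g1, g2, _⟩ := hSG m₀ hm₀
    have h4 : (2 : ℝ) ^ ((1 / 2 - τ₀) * j) ≤ 2 ^ ((1 / 2 : ℝ) * j) := by
      apply Real.rpow_le_rpow_of_exponent_le (by norm_num)
      nlinarith
    have h5 := (hGm m₀ g1).2.2.1
    have h6 : ((2 ^ u : ℕ) : ℝ) ≤ m₀ := by exact_mod_cast g2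
    have h7 : (2 : ℝ) ^ ((1 / 2 : ℝ) * j) = Real.sqrt (2 ^ j) := by
      rw [Real.sqrt_eq_rpow, ← Real.rpow_natCast 2 j, ← Real.rpow_mul (by norm_num)]
      congr 1
      ring
    have h8 : Real.sqrt (2 ^ j) ≤ Real.sqrt (2 * x) := Real.sqrt_le_sqrt h2
    have h9 : 2 * Real.sqrt (2 * x) ≤ x := by
      have h10 := Real.mul_self_sqrt (show 0 ≤ 2 * x by linarith)
      have h11 : Real.sqrt 32 ≤ Real.sqrt (2 * x) := Real.sqrt_le_sqrt (by linarith)
      have h12 : (4 : ℝ) ≤ Real.sqrt 32 := by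
        rw [show (4 : ℝ) = Real.sqrt 16 by rw [show (16 : ℝ) = 4 ^ 2 by norm_num, Real.sqrt_sq (by norm_num)]]
        exact Real.sqrt_le_sqrt (by norm_num)
      nlinarith
    linarith
  have h2u : 2 ≤ 2 ^ u := by
    calc 2 = 2 ^ 1 := rfl
      _ ≤ 2 ^ u := Nat.pow_le_pow_right (by norm_num) hu1
  refine ⟨m, d, hd1', hdD.trans (hpowD D₁ (le_max_left _ _) _ h2u hux), fun i hi => ?_⟩
  obtain ⟨M, hM⟩ : ∃ M, M = m + i * d := ⟨_, rfl⟩
  have hMS := hmS i hi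
  rw [← hM] at hMS ⊢
  obtain ⟨g1, _, _⟩ := hSG M hMS
  obtain ⟨m1, m2, m3, m4, m5⟩ := hGm M g1
  have hM0 : (0 : ℝ) < M := by exact_mod_cast (by omega : 0 < M)
  refine ⟨m1, m2, ?_, ?_⟩
  · have hm6 : (M : ℝ) ≤ 2 * 2 ^ ((1 / 2 - τ) * j) := by
      refine m3.trans ?_
      apply mul_le_mul_of_nonneg_left _ (by norm_num)
      apply Real.rpow_le_rpow_of_exponent_le (by norm_num)
      apply mul_le_mul_of_nonneg_right _ (Nat.cast_nonneg _)
      linarith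
    exact good_of_Gm hτ4 hγ hc₁ hd0 hd1 hd2 hd3 (by linarith) x3 hH0 hxa hbx hl h2 h3 m1 hm6 m4 m5
  -- the progression of primes
  obtain ⟨ℓ, hℓ⟩ : ∃ ℓ, ℓ = b - a := ⟨_, rfl⟩
  rw [← hℓ] at m5
  have hℓlow : (2 : ℝ) ^ ((1 / 2 - δ₁) * j - 1) ≤ ℓ := by
    have h1 : (2 : ℝ) ^ ((1 / 2 - δ₁) * j - 1) ≤ (hh δ₁ j : ℕ) := by
      unfold hh
      push_cast
      rw [← Real.rpow_natCast]
      apply Real.rpow_le_rpow_of_exponent_le (by norm_num)
      have := Nat.lt_floor_add_one ((1 / 2 - δ₁) * (j : ℝ))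
      linarith
    refine h1.trans ?_
    rw [hℓ, hba]
    exact_mod_cast Nat.le_mul_of_pos_left (hh δ₁ j) hL
  have hratio : (2 : ℝ) ^ (ν * j - 2) ≤ (ℓ : ℝ) / M := by
    rw [le_div_iff₀ hM0]
    calc (2 : ℝ) ^ (ν * j - 2) * M ≤ 2 ^ (ν * j - 2) * (2 * 2 ^ ((1 / 2 - τ₀) * j)) :=
          mul_le_mul_of_nonneg_left m3 (by positivity)
      _ = 2 ^ ((1 / 2 - δ₁) * j - 1) := by
          rw [show (2 : ℝ) ^ (ν * j - 2) * (2 * 2 ^ ((1 / 2 - τ₀) * j)) =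
            2 ^ (ν * j - 2) * (2 ^ (1 : ℝ) * 2 ^ ((1 / 2 - τ₀) * j)) by rw [Real.rpow_one],
            ← Real.rpow_add (by norm_num), ← Real.rpow_add (by norm_num), hν]
          congr 1
          ring
      _ ≤ ℓ := hℓlow
  have hνj : 4 ≤ ν * j := by
    have h4 := x5
    rw [div_le_iff₀ hν0] at h4
    nlinarith
  obtain ⟨Y, hY⟩ : ∃ Y : ℕ, Y = ℓ / M + 1 := ⟨_, rfl⟩
  have hY1 : (ℓ : ℝ) / M ≤ Y := by
    rw [hY, div_le_iff₀ hM0]
    have := Nat.lt_div_mul_add (a := ℓ) (show 0 < M by omega)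
    have h4 : ℓ ≤ (ℓ / M + 1) * M := by
      rw [add_mul, one_mul]
      exact this.le
    exact_mod_cast h4
  have hYlow : (2 : ℝ) ^ (ν * j / 2) ≤ Y := by
    refine le_trans ?_ (hratio.trans hY1)
    apply Real.rpow_le_rpow_of_exponent_le (by norm_num)
    linarith
  have hone : 1 ≤ (ℓ : ℝ) / M := by
    refine le_trans ?_ hratio
    apply Real.one_le_rpow (by norm_num)
    linarith
  have hYup : (Y : ℝ) ≤ 2 * (ℓ / M) := by
    have h4 : ((ℓ / M : ℕ) : ℝ) ≤ (ℓ : ℝ) / M := Nat.cast_div_le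
    rw [hY]
    push_cast
    linarith
  have hYlog : ν * j / 2 * Real.log 2 ≤ Real.log Y := by
    have := Real.log_le_log (by positivity) hYlow
    rw [Real.log_rpow (by norm_num)] at this
    exact this
  have hY2 : 2 ≤ Y := by
    have h4 : (2 : ℝ) ≤ 2 ^ (ν * j / 2) := by
      calc (2 : ℝ) = 2 ^ (1 : ℝ) := (Real.rpow_one 2).symm
        _ ≤ _ := Real.rpow_le_rpow_of_exponent_le (by norm_num) (by linarith)
    have : (2 : ℝ) ≤ Y := h4.trans hYlow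
    exact_mod_cast this
  have hYX : X₂ ≤ Y := by
    have h4 : (X₂ : ℝ) ≤ ν * j / 2 := by nlinarith
    have h5 : ν * j / 2 ≤ (2 : ℝ) ^ (ν * j / 2) := by
      have h6 : ν * j / 2 + 1 ≤ (2 : ℝ) ^ (ν * j / 2) := by
        have := one_add_mul_self_le_rpow_one_add (show (-1 : ℝ) ≤ 1 by norm_num) (show 1 ≤ ν * j / 2 by linarith)
        norm_num at this
        linarith
      linarith
    have : (X₂ : ℝ) ≤ Y := by linarith
    exact_mod_cast this
  have hma : (M : ℝ) * M ≤ a := by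
    have h4 : (M : ℝ) ≤ x ^ (1 / 2 - τ / 2) := by
      have hm6 : (M : ℝ) ≤ 2 * 2 ^ ((1 / 2 - τ) * j) := by
        refine m3.trans ?_
        apply mul_le_mul_of_nonneg_left _ (by norm_num)
        apply Real.rpow_le_rpow_of_exponent_le (by norm_num)
        apply mul_le_mul_of_nonneg_right _ (Nat.cast_nonneg _)
        linarith
      calc (M : ℝ) ≤ 2 * 2 ^ ((1 / 2 - τ) * j) := hm6
        _ = 2 * ((2 : ℝ) ^ j) ^ (1 / 2 - τ) := by
            rw [← Real.rpow_natCast 2 j, ← Real.rpow_mul (by norm_num)]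
            congr 2
            ring
        _ ≤ 2 * (2 * x) ^ (1 / 2 - τ) := by
            apply mul_le_mul_of_nonneg_left _ (by norm_num)
            exact Real.rpow_le_rpow (by positivity) h2 (by linarith)
        _ = 2 * 2 ^ (1 / 2 - τ) * x ^ (1 / 2 - τ) := by
            rw [Real.mul_rpow (by norm_num) hx0.le]
            ring
        _ ≤ 4 * x ^ (1 / 2 - τ) := by
            apply mul_le_mul_of_nonneg_right _ (by positivity)
            have : (2 : ℝ) ^ (1 / 2 - τ) ≤ 2 ^ (1 : ℝ) := Real.rpow_le_rpow_of_exponent_le (by norm_num) (by linarith)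
            rw [Real.rpow_one] at this
            linarith
        _ ≤ x ^ (τ / 2) * x ^ (1 / 2 - τ) := mul_le_mul_of_nonneg_right x3 (by positivity)
        _ = x ^ (1 / 2 - τ / 2) := by rw [← Real.rpow_add hx0]; congr 1; ring
    calc (M : ℝ) * M ≤ x ^ (1 / 2 - τ / 2) * x ^ (1 / 2 - τ / 2) := mul_le_mul h4 h4 hM0.le (by positivity)
      _ = x ^ (1 - τ) := by rw [← Real.rpow_add hx0]; congr 1; ring
      _ ≤ x ^ (1 : ℝ) := Real.rpow_le_rpow_of_exponent_le (by linarith) (by linarith)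
      _ = x := Real.rpow_one x
      _ ≤ a := hxa
  have hYx : (Y : ℝ) ≤ x := by
    have h4 : (ℓ : ℝ) / M ≤ H / M := by
      apply div_le_div_of_nonneg_right _ hM0.le
      have h5 : ((a + ℓ : ℕ) : ℝ) ≤ x + H := by
        have : a + ℓ = b := by omega
        rw [this]
        exact hbx
      push_cast at h5
      linarith
    have h5 : (M : ℝ) ≥ 2 := by exact_mod_cast m1
    have h6 : H / M ≤ x / 2 := by
      rw [div_le_div_iff₀ hM0 (by norm_num)]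
      nlinarith
    linarith
  obtain ⟨q, f, hf1, hfD, hq⟩ := hap2 Y hYX (a / M) ((Ioc (a / M) (b / M) : Finset ℕ).filter Nat.Prime) (by
    intro n hn
    rw [mem_filter, mem_Ioc] at hn
    rw [mem_Ioc]
    refine ⟨hn.1.1, hn.1.2.trans ?_⟩
    have hbl : b = a + ℓ := by omega
    rw [hY, hbl]
    have ha1 := Nat.lt_div_mul_add (a := a) (show 0 < M by omega)
    have hl1 := Nat.lt_div_mul_add (a := ℓ) (show 0 < M by omega)
    have h4 : a + ℓ < (a / M + ℓ / M + 1 + 1) * M := by nlinarith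
    have := (Nat.div_lt_iff_lt_mul (show 0 < M by omega)).2 h4
    omega) (by
    intro n hn p hp hpX hpn
    rw [mem_filter] at hn
    have h4 : p = n := (Nat.prime_dvd_prime_iff_eq hp hn.2).1 hpn
    rw [← Real.sqrt_eq_rpow] at hpX
    have h6 : (a : ℝ) / M < n := by
      have h7 := hn.1
      rw [mem_Ioc, Nat.div_lt_iff_lt_mul (by omega)] at h7
      rw [div_lt_iff₀ hM0]
      exact_mod_cast h7.1
    have h8 : Real.sqrt a ≤ a / M := by
      rw [le_div_iff₀ hM0]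
      have h10 : (M : ℝ) ≤ Real.sqrt a := by
        rw [Real.le_sqrt hM0.le (by linarith)]
        rw [pow_two]
        exact hma
      have h11 := Real.mul_self_sqrt (show (0 : ℝ) ≤ a by linarith)
      have h12 := Real.sqrt_nonneg (a : ℝ)
      nlinarith
    have h9 : Real.sqrt Y ≤ Real.sqrt a := Real.sqrt_le_sqrt (hYx.trans hxa)
    rw [h4] at hpX
    linarith) (by
    refine le_trans ?_ m5
    have hlY : 0 < Real.log Y := Real.log_pos (by exact_mod_cast (by omega : 1 < Y))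
    calc c₁ * ν * Real.log 2 / 4 * Y / Real.log Y ≤ c₁ * ν * Real.log 2 / 4 * Y / (ν * j / 2 * Real.log 2) := by
          apply div_le_div_of_nonneg_left (by positivity) (by positivity) hYlog
      _ = c₁ / 2 * Y / j := by field_simp; ring
      _ ≤ c₁ / 2 * (2 * (ℓ / M)) / j := by
          apply div_le_div_of_nonneg_right _ hj0.le
          exact mul_le_mul_of_nonneg_left hYup (by positivity)
      _ = c₁ * (ℓ / M) / j := by ring)
  refine ⟨q, f, hf1, hfD.trans (hpowD D₂ (le_max_right _ _) _ hY2 hYx), fun l hl' => ?_⟩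
  have h4 := hq l hl'
  rw [mem_filter, mem_Ioc, Nat.div_lt_iff_lt_mul (by omega), Nat.le_div_iff_mul_le (by omega)] at h4
  obtain ⟨⟨h5, h6⟩, h7⟩ := h4
  refine ⟨h7, ?_, ?_⟩
  · have : (a : ℝ) < ((M * (q + l * f) : ℕ) : ℝ) := by
      rw [mul_comm]
      exact_mod_cast h5
    linarith
  · have : ((M * (q + l * f) : ℕ) : ℝ) ≤ b := by
      rw [mul_comm]
      exact_mod_cast h6
    linarith

end Pool.Agent.Q253.Host
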