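import Pool.Agent.Q253.Host.Rich

/-!
# One thin set of multipliers for all intervals of length `x ^ (1 / 2 - δ)`
-/

set_option autoImplicit false

namespace Pool.Agent.Q253.Host

open Finset Filter
open Pool.Agent.W76.MO
open Pool.Agent.Q253.Cov

theorem hh_le {δ₁ : ℝ} (hd : δ₁ ≤ 1 / 8) (j : ℕ) : ((hh δ₁ j : ℕ) : ℝ) ≤ ((2 : ℝ) ^ j) ^ (1 / 2 - δ₁) := by
  unfold hh
  push_cast
  rw [← Real.rpow_natCast, ← Real.rpow_natCast 2 j, ← Real.rpow_mul (by norm_num)]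
  apply Real.rpow_le_rpow_of_exponent_le (by norm_num)
  have h0 : 0 ≤ (1 / 2 - δ₁) * (j : ℝ) := mul_nonneg (by linarith) (Nat.cast_nonneg _)
  have := Nat.floor_le h0
  linarith

/-- a long subinterval of `(x, x + H]` which lies at one scale -/
theorem choose_scale {δ₁ δ x H : ℝ} (hd1 : 0 < δ₁) (hd : δ₁ ≤ 1 / 8) (hδ : δ ≤ δ₁ / 2)
    (hx : 2 ≤ x) (hx2 : 16 ≤ x ^ (δ₁ / 2)) (hH : x ^ (1 / 2 - δ) ≤ H) (hHx : H ≤ x) :
    ∃ j a L : ℕ, 1 ≤ L ∧ 2 ^ j ≤ a ∧ a + L * hh δ₁ j ≤ 2 ^ (j + 1) ∧ x ≤ a ∧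
      ((a + L * hh δ₁ j : ℕ) : ℝ) ≤ x + H ∧ H / 4 ≤ ((L * hh δ₁ j : ℕ) : ℝ) ∧ (2 : ℝ) ^ j ≤ 2 * x ∧ x < 2 ^ (j + 1) := by
  have hx0 : 0 < x := by linarith
  obtain ⟨i, hi⟩ : ∃ i, i = Nat.log 2 ⌊x⌋₊ := ⟨_, rfl⟩
  have hfl : ⌊x⌋₊ ≠ 0 := by
    have : 1 ≤ ⌊x⌋₊ := Nat.le_floor (by push_cast; linarith)
    omega
  have hi1 : (2 : ℝ) ^ i ≤ x := by
    have h1 : 2 ^ i ≤ ⌊x⌋₊ := by rw [hi]; exact Nat.pow_log_le_self 2 hfl
    have h2 := Nat.floor_le hx0.le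
    have h3 : ((2 ^ i : ℕ) : ℝ) ≤ (⌊x⌋₊ : ℝ) := by exact_mod_cast h1
    push_cast at h3
    linarith
  have hi2 : x < 2 ^ (i + 1) := by
    have h1 : ⌊x⌋₊ < 2 ^ (i + 1) := by rw [hi]; exact Nat.lt_pow_succ_log_self (by norm_num) _
    have h2 : ⌊x⌋₊ + 1 ≤ 2 ^ (i + 1) := h1
    have h3 : ((⌊x⌋₊ + 1 : ℕ) : ℝ) ≤ ((2 ^ (i + 1) : ℕ) : ℝ) := by exact_mod_cast h2
    push_cast at h3
    have := Nat.lt_floor_add_one x
    linarith
  have hH0 : 0 < H := lt_of_lt_of_le (by positivity) hH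
  have h12 : 0 ≤ 1 / 2 - δ₁ := by linarith
  have hY1 : 1 ≤ x ^ (1 / 2 - δ₁) := Real.one_le_rpow (by linarith) h12
  have hHY : 16 * x ^ (1 / 2 - δ₁) ≤ H := by
    refine le_trans ?_ hH
    calc 16 * x ^ (1 / 2 - δ₁) ≤ x ^ (δ₁ / 2) * x ^ (1 / 2 - δ₁) := mul_le_mul_of_nonneg_right hx2 (by positivity)
      _ = x ^ (1 / 2 - δ₁ / 2) := by rw [← Real.rpow_add hx0]; congr 1; ring
      _ ≤ x ^ (1 / 2 - δ) := Real.rpow_le_rpow_of_exponent_le (by linarith) (by linarith)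
  have hhpos : ∀ j, (0 : ℝ) < ((hh δ₁ j : ℕ) : ℝ) := fun j => by
    have : 1 ≤ hh δ₁ j := Nat.one_le_two_pow
    exact_mod_cast this
  have hLpos : ∀ {j L : ℕ}, H / 4 ≤ ((L * hh δ₁ j : ℕ) : ℝ) → 1 ≤ L := by
    intro j L h
    rcases Nat.eq_zero_or_pos L with h0 | h0
    · rw [h0, zero_mul, Nat.cast_zero] at h
      linarith
    · exact h0
  by_cases hc : x + H / 2 ≤ 2 ^ (i + 1)
  · obtain ⟨h, hh'⟩ : ∃ h : ℝ, h = ((hh δ₁ i : ℕ) : ℝ) := ⟨_, rfl⟩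
    have hh0 : 0 < h := by rw [hh']; exact hhpos i
    have hhle : h ≤ x ^ (1 / 2 - δ₁) := by
      rw [hh']
      exact (hh_le hd i).trans (Real.rpow_le_rpow (by positivity) hi1 h12)
    obtain ⟨L, hL⟩ : ∃ L : ℕ, L = ⌊(H / 2 - 1) / h⌋₊ := ⟨_, rfl⟩
    have hL1 : (L : ℝ) * h ≤ H / 2 - 1 := by
      have := Nat.floor_le (show 0 ≤ (H / 2 - 1) / h from div_nonneg (by linarith) hh0.le)
      rw [← hL, le_div_iff₀ hh0] at this
      exact this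
    have hL2 : H / 2 - 1 < (L + 1) * h := by
      have := Nat.lt_floor_add_one ((H / 2 - 1) / h)
      rw [← hL, div_lt_iff₀ hh0] at this
      exact this
    have hLH : H / 4 ≤ ((L * hh δ₁ i : ℕ) : ℝ) := by
      push_cast
      rw [← hh']
      nlinarith
    have ha1 := Nat.ceil_lt_add_one hx0.le
    have ha2 := Nat.le_ceil x
    refine ⟨i, ⌈x⌉₊, L, hLpos hLH, ?_, ?_, ha2, ?_, hLH, by linarith, hi2⟩
    · have : (2 : ℝ) ^ i ≤ (⌈x⌉₊ : ℝ) := hi1.trans ha2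
      exact_mod_cast this
    · have : ((⌈x⌉₊ + L * hh δ₁ i : ℕ) : ℝ) ≤ ((2 ^ (i + 1) : ℕ) : ℝ) := by
        push_cast
        rw [← hh']
        linarith
      exact_mod_cast this
    · push_cast
      rw [← hh']
      linarith
  · push Not at hc
    obtain ⟨h, hh'⟩ : ∃ h : ℝ, h = ((hh δ₁ (i + 1) : ℕ) : ℝ) := ⟨_, rfl⟩
    have hh0 : 0 < h := by rw [hh']; exact hhpos _
    have hhle : h ≤ 2 * x ^ (1 / 2 - δ₁) := by
      rw [hh']
      refine (hh_le hd (i + 1)).trans ?_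
      have h1 : (2 : ℝ) ^ (i + 1) ≤ 2 * x := by rw [pow_succ]; linarith
      refine (Real.rpow_le_rpow (by positivity) h1 h12).trans ?_
      rw [Real.mul_rpow (by norm_num) hx0.le]
      apply mul_le_mul_of_nonneg_right _ (by positivity)
      calc (2 : ℝ) ^ (1 / 2 - δ₁) ≤ 2 ^ (1 : ℝ) := Real.rpow_le_rpow_of_exponent_le (by norm_num) (by linarith)
        _ = 2 := Real.rpow_one 2
    obtain ⟨L, hL⟩ : ∃ L : ℕ, L = ⌊(H / 2) / h⌋₊ := ⟨_, rfl⟩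
    have hL1 : (L : ℝ) * h ≤ H / 2 := by
      have := Nat.floor_le (show 0 ≤ (H / 2) / h by positivity)
      rw [← hL, le_div_iff₀ hh0] at this
      exact this
    have hL2 : H / 2 < (L + 1) * h := by
      have := Nat.lt_floor_add_one ((H / 2) / h)
      rw [← hL, div_lt_iff₀ hh0] at this
      exact this
    have hLH : H / 4 ≤ ((L * hh δ₁ (i + 1) : ℕ) : ℝ) := by
      push_cast
      rw [← hh']
      nlinarith
    have e1 : (2 : ℝ) ^ (i + 1) = 2 * 2 ^ i := by rw [pow_succ]; ring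
    have e2 : (2 : ℝ) ^ (i + 1 + 1) = 4 * 2 ^ i := by rw [pow_succ, pow_succ]; ring
    refine ⟨i + 1, 2 ^ (i + 1), L, hLpos hLH, le_rfl, ?_, ?_, ?_, hLH, by linarith, by rw [e2]; linarith⟩
    · have : ((2 ^ (i + 1) + L * hh δ₁ (i + 1) : ℕ) : ℝ) ≤ ((2 ^ (i + 1 + 1) : ℕ) : ℝ) := by
        push_cast
        rw [← hh', e1, e2]
        linarith
      exact_mod_cast this
    · push_cast
      linarith
    · push_cast
      rw [← hh']
      linarith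

/-- `m ≤ x ^ (1 / 2 - 2 δ)` has only prime factors `≥ x ^ (2 δ)`, and there are at least `δ (H / m) / log x` primes `p` with
`x < m p ≤ x + H` -/
def Good (δ x H : ℝ) (m : ℕ) : Prop :=
  (m : ℝ) ≤ x ^ (1 / 2 - 2 * δ) ∧ (∀ p : ℕ, p.Prime → p ∣ m → x ^ (2 * δ) ≤ p) ∧
    δ * (H / m) / Real.log x ≤ ({p : ℕ | p.Prime ∧ x < m * p ∧ (m * p : ℝ) ≤ x + H}.ncard : ℝ)

theorem fin_primes (x H : ℝ) {m : ℕ} (hm : 1 ≤ m) : {p : ℕ | p.Prime ∧ x < m * p ∧ (m * p : ℝ) ≤ x + H}.Finite := by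
  apply (finite_toSet (Icc 0 ⌊x + H⌋₊)).subset
  rintro p ⟨hp, _, h2⟩
  rw [mem_coe, mem_Icc]
  refine ⟨Nat.zero_le _, Nat.le_floor ?_⟩
  have h3 : (p : ℝ) ≤ m * p := by
    have h4 : p ≤ m * p := Nat.le_mul_of_pos_left p hm
    exact_mod_cast h4
  linarith

/-- elements of `Gm` are good -/
theorem good_of_Gm {τ γ c₁ δ x H : ℝ} {j a b m : ℕ} (hτ2 : τ ≤ 1 / 4) (hγ : 0 < γ) (hc₁ : 0 < c₁)
    (hδ : 0 < δ) (hδτ : δ ≤ τ / 4) (hδγ : δ ≤ γ / 4) (hδc : δ ≤ c₁ / 12) (hx : 4 ≤ x) (hxτ : 4 ≤ x ^ (τ / 2))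
    (hH : 0 < H) (hxa : x ≤ a) (hbx : (b : ℝ) ≤ x + H) (hl : H / 4 ≤ ((b - a : ℕ) : ℝ))
    (h2 : (2 : ℝ) ^ j ≤ 2 * x) (h3 : x < 2 ^ (j + 1)) (hm2 : 2 ≤ m) (hm3 : (m : ℝ) ≤ 2 * 2 ^ ((1 / 2 - τ) * j))
    (hm4 : Rough ((2 : ℝ) ^ (γ * j)) m)
    (hm5 : c₁ * (((b - a : ℕ) : ℝ) / m) / j ≤ (((Ioc (a / m) (b / m) : Finset ℕ).filter Nat.Prime).card : ℝ)) :
    Good δ x H m := by
  have hx0 : 0 < x := by linarith
  have hm0 : (0 : ℝ) < m := by exact_mod_cast (by omega : 0 < m)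
  have hlx : 0 < Real.log x := Real.log_pos (by linarith)
  have hj0 : (0 : ℝ) < j := by
    rcases Nat.eq_zero_or_pos j with h0 | h0
    · rw [h0] at h3
      norm_num at h3
      linarith
    · exact_mod_cast h0
  refine ⟨?_, ?_, ?_⟩
  · calc (m : ℝ) ≤ 2 * 2 ^ ((1 / 2 - τ) * j) := hm3
      _ = 2 * ((2 : ℝ) ^ j) ^ (1 / 2 - τ) := by
          rw [← Real.rpow_natCast 2 j, ← Real.rpow_mul (by norm_num)]
          congr 2
          ring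
      _ ≤ 2 * (2 * x) ^ (1 / 2 - τ) := by
          apply mul_le_mul_of_nonneg_left _ (by norm_num)
          exact Real.rpow_le_rpow (by positivity) h2 (by linarith)
      _ = 2 * 2 ^ (1 / 2 - τ) * x ^ (1 / 2 - τ) := by
          rw [Real.mul_rpow (by norm_num) hx0.le]
          ring
      _ ≤ 4 * x ^ (1 / 2 - τ) := by
          apply mul_le_mul_of_nonneg_right _ (by positivity)
          have : (2 : ℝ) ^ (1 / 2 - τ) ≤ 2 ^ (1 : ℝ) := Real.rpow_le_rpow_of_exponent_le (by norm_num) (by linarith)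
          rw [Real.rpow_one] at this
          linarith
      _ ≤ x ^ (τ / 2) * x ^ (1 / 2 - τ) := mul_le_mul_of_nonneg_right hxτ (by positivity)
      _ = x ^ (1 / 2 - τ / 2) := by rw [← Real.rpow_add hx0]; congr 1; ring
      _ ≤ x ^ (1 / 2 - 2 * δ) := Real.rpow_le_rpow_of_exponent_le (by linarith) (by linarith)
  · intro p hp hpm
    refine le_trans ?_ (hm4 p hp hpm)
    have h4 : x / 2 ≤ 2 ^ j := by
      rw [pow_succ] at h3
      linarith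
    have h5 : x ^ (1 / 2 : ℝ) ≤ x / 2 := by
      rw [← Real.sqrt_eq_rpow]
      have h6 : 2 ≤ Real.sqrt x := by
        rw [show (2 : ℝ) = Real.sqrt 4 by rw [show (4 : ℝ) = 2 ^ 2 by norm_num, Real.sqrt_sq (by norm_num)]]
        exact Real.sqrt_le_sqrt hx
      have h7 := Real.mul_self_sqrt hx0.le
      nlinarith
    calc x ^ (2 * δ) ≤ x ^ (1 / 2 * γ) := Real.rpow_le_rpow_of_exponent_le (by linarith) (by linarith)
      _ = (x ^ (1 / 2 : ℝ)) ^ γ := by rw [Real.rpow_mul hx0.le]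
      _ ≤ ((2 : ℝ) ^ j) ^ γ := Real.rpow_le_rpow (by positivity) (h5.trans h4) hγ.le
      _ = 2 ^ (γ * j) := by
          rw [← Real.rpow_natCast 2 j, ← Real.rpow_mul (by norm_num)]
          congr 1
          ring
  · have hjl : (j : ℝ) ≤ 3 * Real.log x := by
      have h4 := Real.log_le_log (by positivity) h2
      rw [Real.log_pow, Real.log_mul (by norm_num) (by linarith)] at h4
      have h5 : Real.log 2 ≤ Real.log x := Real.log_le_log (by norm_num) (by linarith)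
      have h6 := Real.log_two_gt_d9
      nlinarith
    have hcount : (((Ioc (a / m) (b / m) : Finset ℕ).filter Nat.Prime).card : ℝ) ≤
        ({p : ℕ | p.Prime ∧ x < m * p ∧ (m * p : ℝ) ≤ x + H}.ncard : ℝ) := by
      have hsub : (((Ioc (a / m) (b / m) : Finset ℕ).filter Nat.Prime : Finset ℕ) : Set ℕ) ⊆
          {p : ℕ | p.Prime ∧ x < m * p ∧ (m * p : ℝ) ≤ x + H} := by
        intro p hp
        rw [mem_coe, mem_filter, mem_Ioc, Nat.div_lt_iff_lt_mul (by omega), Nat.le_div_iff_mul_le (by omega)] at hp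
        obtain ⟨⟨h4, h5⟩, h6⟩ := hp
        have h4r : (a : ℝ) < p * m := by exact_mod_cast h4
        have h5r : (p * m : ℝ) ≤ b := by exact_mod_cast h5
        exact ⟨h6, by linarith, by linarith⟩
      have := Set.ncard_le_ncard hsub (fin_primes x H (by omega))
      rw [Set.ncard_coe_finset] at this
      exact_mod_cast this
    refine le_trans ?_ (hm5.trans hcount)
    have h7 : H / 4 / m ≤ ((b - a : ℕ) : ℝ) / m := div_le_div_of_nonneg_right hl hm0.le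
    calc δ * (H / m) / Real.log x ≤ c₁ / 12 * (H / m) / Real.log x := by
          apply div_le_div_of_nonneg_right _ hlx.le
          exact mul_le_mul_of_nonneg_right hδc (by positivity)
      _ = c₁ * (H / 4 / m) / (3 * Real.log x) := by field_simp; ring
      _ ≤ c₁ * (((b - a : ℕ) : ℝ) / m) / (3 * Real.log x) := by
          apply div_le_div_of_nonneg_right _ (by positivity)
          exact mul_le_mul_of_nonneg_left h7 hc₁.le
      _ ≤ _ := by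
          apply div_le_div_of_nonneg_left _ hj0 hjl
          positivity

open scoped Classical in
/-- **One thin set of multipliers.** -/
theorem main : ∃ δ C : ℝ, 0 < δ ∧ δ ≤ 1 / 16 ∧ 0 < C ∧ ∃ M : Set ℕ,
    (∀ m ∈ M, 2 ≤ m ∧ Squarefree m ∧ ∀ p : ℕ, p.Prime → p ∣ m → (m : ℝ) ^ δ ≤ p) ∧
    (∀ y : ℝ, 2 ≤ y → {m ∈ M | (m : ℝ) ≤ y}.Finite ∧ ({m ∈ M | (m : ℝ) ≤ y}.ncard : ℝ) ≤ C * Real.log y) ∧
    ∃ x₀ : ℝ, 16 ≤ x₀ ∧ ∀ x H : ℝ, x₀ ≤ x → x ^ (1 / 2 - δ) ≤ H → H ≤ x →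
      δ * Real.log x ≤ ({m ∈ M | Good δ x H m}.ncard : ℝ) := by
  obtain ⟨τ₀, γ, δ₁, c₁, c₂, hτ₀, hγ, hδ₁, hδτ₀, hδ8, hc₁, hc₂, e, he, j₀, H0⟩ := host_rich
  obtain ⟨τ, hτ⟩ : ∃ τ : ℝ, τ = min τ₀ (1 / 4) := ⟨_, rfl⟩
  have hτ0 : 0 < τ := by rw [hτ]; positivity
  have hτ4 : τ ≤ 1 / 4 := by rw [hτ]; exact min_le_right _ _
  have hττ : τ ≤ τ₀ := by rw [hτ]; exact min_le_left _ _
  obtain ⟨δ, hδ⟩ : ∃ δ : ℝ, δ = min (min (τ / 4) (γ / 4)) (min (min (c₁ / 12) (δ₁ / 2)) (1 / (e : ℝ) ^ 2)) := ⟨_, rfl⟩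
  have he0 : (0 : ℝ) < e := by exact_mod_cast (by omega : 0 < e)
  have hd0 : 0 < δ := by rw [hδ]; positivity
  have hd1 : δ ≤ τ / 4 := by rw [hδ]; exact (min_le_left _ _).trans (min_le_left _ _)
  have hd2 : δ ≤ γ / 4 := by rw [hδ]; exact (min_le_left _ _).trans (min_le_right _ _)
  have hd3 : δ ≤ c₁ / 12 := by rw [hδ]; exact ((min_le_right _ _).trans (min_le_left _ _)).trans (min_le_left _ _)
  have hd4 : δ ≤ δ₁ / 2 := by rw [hδ]; exact ((min_le_right _ _).trans (min_le_left _ _)).trans (min_le_right _ _)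
  have hd5 : δ ≤ 1 / (e : ℝ) ^ 2 := by rw [hδ]; exact (min_le_right _ _).trans (min_le_right _ _)
  -- the family
  obtain ⟨I, hI⟩ : ∃ I : ℕ → Finset (ℕ × ℕ × ℕ), I = fun k =>
    ((Icc (2 ^ k) (2 ^ (k + 1))) ×ˢ ((Icc 1 (2 ^ 2 ^ (k + 1))) ×ˢ (Icc 1 (2 ^ 2 ^ (k + 1))))).filter
      (fun u => j₀ ≤ u.1 ∧ 1 ≤ u.2.2 ∧ 2 ^ u.1 ≤ u.2.1 ∧ u.2.1 + u.2.2 * hh δ₁ u.1 ≤ 2 ^ (u.1 + 1) ∧ u.1 < 2 ^ (k + 1)) := ⟨_, rfl⟩
  obtain ⟨B, hB⟩ : ∃ B : ℕ → (ℕ × ℕ × ℕ) → Finset ℕ, B = fun k u =>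
    Gm τ₀ γ c₁ e k u.1 u.2.1 (u.2.1 + u.2.2 * hh δ₁ u.1) := ⟨_, rfl⟩
  obtain ⟨C, hC, M, hM1, hM2, i₁, hM3⟩ := cover_many 6 e (by omega) c₂ hc₂ I B 2 (by
    intro k hk
    obtain ⟨Z, hZ⟩ : ∃ Z : ℕ, Z = 2 ^ 2 ^ k := ⟨_, rfl⟩
    have hZ2 : 2 ^ 2 ^ (k + 1) = Z ^ 2 := by rw [hZ, pow_succ, pow_mul]
    rw [hI, ← hZ]
    refine (card_filter_le _ _).trans ?_
    rw [card_product, card_product, Nat.card_Icc, Nat.card_Icc, hZ2, Nat.add_sub_cancel]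
    have h1 : 2 ^ (k + 1) + 1 - 2 ^ k ≤ Z ^ 2 := by
      have h2 : 2 ^ (k + 1) = 2 * 2 ^ k := by rw [pow_succ]; ring
      have h3 : 2 ^ k < Z := by rw [hZ]; exact Nat.lt_two_pow_self
      have h4 : 2 * Z ≤ Z ^ 2 := by
        rw [pow_two]
        apply Nat.mul_le_mul_right
        have : 1 ≤ 2 ^ k := Nat.one_le_two_pow
        omega
      omega
    calc (2 ^ (k + 1) + 1 - 2 ^ k) * (Z ^ 2 * Z ^ 2) ≤ Z ^ 2 * (Z ^ 2 * Z ^ 2) := Nat.mul_le_mul_right _ h1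
      _ = Z ^ 6 := by ring) (by
    intro k hk u hu
    rw [hI] at hu
    simp only [mem_filter, mem_product, mem_Icc] at hu
    obtain ⟨⟨⟨u1, u2⟩, _⟩, u5, u6, u7, u8, u9⟩ := hu
    rw [hB]
    refine ⟨?_, H0 u.1 u5 u.2.1 u.2.2 u6 u7 u8 k u1 u9⟩
    unfold Gm
    exact filter_subset _ _)
  -- large x
  have hlarge : ∀ᶠ x : ℝ in atTop, 16 ≤ x ∧ 16 ≤ x ^ (δ₁ / 2) ∧ 4 ≤ x ^ (τ / 2) ∧ (2 : ℝ) ^ (j₀ + 1) ≤ x ∧ (2 : ℝ) ^ 2 ^ (i₁ + 2) ≤ x := by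
    filter_upwards [eventually_ge_atTop 16, (tendsto_rpow_atTop (show 0 < δ₁ / 2 by positivity)).eventually_ge_atTop 16,
      (tendsto_rpow_atTop (show 0 < τ / 2 by positivity)).eventually_ge_atTop 4, eventually_ge_atTop ((2 : ℝ) ^ (j₀ + 1)),
      eventually_ge_atTop ((2 : ℝ) ^ 2 ^ (i₁ + 2))] with x h1 h2 h3 h4 h5
    exact ⟨h1, h2, h3, h4, h5⟩
  obtain ⟨x₀, hx₀⟩ := eventually_atTop.1 hlarge
  refine ⟨δ, C, hd0, by linarith, hC, M, ?_, ?_, max x₀ 16, le_max_right _ _, ?_⟩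
  · intro m hm
    obtain ⟨i, hi⟩ := hM1 m hm
    obtain ⟨m1, m2, m3, m4⟩ := mem_Rz.1 hi
    refine ⟨m1, m3, fun p hp hpm => ?_⟩
    have h1 := m4 p hp hpm
    have h2 : m ≤ p ^ (e ^ 2) := by
      calc m ≤ (2 ^ 2 ^ i) ^ e := m2
        _ ≤ (p ^ e) ^ e := Nat.pow_le_pow_left h1 e
        _ = p ^ (e ^ 2) := by rw [← pow_mul, pow_two]
    have hp0 : (0 : ℝ) < p := by exact_mod_cast hp.pos
    have hm1 : (1 : ℝ) ≤ m := by exact_mod_cast (by omega : 1 ≤ m)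
    calc (m : ℝ) ^ δ ≤ (m : ℝ) ^ (1 / (e : ℝ) ^ 2) := Real.rpow_le_rpow_of_exponent_le hm1 hd5
      _ ≤ ((p : ℝ) ^ (e ^ 2)) ^ (1 / (e : ℝ) ^ 2) := by
          apply Real.rpow_le_rpow (by positivity) _ (by positivity)
          exact_mod_cast h2
      _ = p := by
          rw [← Real.rpow_natCast, ← Real.rpow_mul hp0.le]
          push_cast
          rw [mul_one_div_cancel (by positivity), Real.rpow_one]
  · intro y hy
    have hy1 : 2 ≤ ⌊y⌋₊ := Nat.le_floor (by push_cast; exact hy)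
    obtain ⟨h1, h2⟩ := hM2 ⌊y⌋₊ hy1
    have hset : {m ∈ M | (m : ℝ) ≤ y} = {m ∈ M | m ≤ ⌊y⌋₊} := by
      ext m
      simp only [Set.mem_ofPred_eq]
      rw [Nat.le_floor_iff (by linarith)]
    rw [hset]
    refine ⟨h1, h2.trans ?_⟩
    apply mul_le_mul_of_nonneg_left _ hC.le
    apply Real.log_le_log
    · exact_mod_cast (by omega : 0 < ⌊y⌋₊)
    · exact Nat.floor_le (by linarith)
  · intro x H hx hH hHx
    obtain ⟨x1, x2, x3, x4, x5⟩ := hx₀ x ((le_max_left _ _).trans hx)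
    have hx0 : 0 < x := by linarith
    have hH0 : 0 < H := lt_of_lt_of_le (by positivity) hH
    obtain ⟨j, a, L, hL, ha, hb, hxa, hbx, hl, h2, h3⟩ := choose_scale hδ₁ hδ8 hd4 (by linarith) x2 hH hHx
    have hj₀ : j₀ ≤ j := by
      have h4 : (2 : ℝ) ^ (j₀ + 1) < 2 ^ (j + 1) := lt_of_le_of_lt x4 h3
      have h5 := (pow_lt_pow_iff_right₀ (by norm_num : (1 : ℝ) < 2)).1 h4
      omega
    have hji : 2 ^ (i₁ + 1) ≤ j := by
      have h4 : (2 : ℝ) ^ 2 ^ (i₁ + 2) < 2 ^ (j + 1) := lt_of_le_of_lt x5 h3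
      have h5 := (pow_lt_pow_iff_right₀ (by norm_num : (1 : ℝ) < 2)).1 h4
      have h6 : 2 ^ (i₁ + 2) = 2 * 2 ^ (i₁ + 1) := by rw [pow_succ]; ring
      have h7 : 1 ≤ 2 ^ (i₁ + 1) := Nat.one_le_two_pow
      omega
    have hj1 : j ≠ 0 := by
      have h7 : 1 ≤ 2 ^ (i₁ + 1) := Nat.one_le_two_pow
      omega
    obtain ⟨k, hk⟩ : ∃ k, k = Nat.log 2 j := ⟨_, rfl⟩
    have hk1 : 2 ^ k ≤ j := by rw [hk]; exact Nat.pow_log_le_self 2 hj1
    have hk2 : j < 2 ^ (k + 1) := by rw [hk]; exact Nat.lt_pow_succ_log_self (by norm_num) _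
    have hki : i₁ ≤ k := by
      have h4 : 2 ^ (i₁ + 1) < 2 ^ (k + 1) := lt_of_le_of_lt hji hk2
      have h5 := (Nat.pow_lt_pow_iff_right (by norm_num : 1 < 2)).1 h4
      omega
    have hZb : 2 ^ (j + 1) ≤ 2 ^ 2 ^ (k + 1) := Nat.pow_le_pow_right (by norm_num) hk2
    have hh1 : 1 ≤ hh δ₁ j := Nat.one_le_two_pow
    have hmem : (j, a, L) ∈ I k := by
      rw [hI]
      simp only [mem_filter, mem_product, mem_Icc]
      have hLh : L ≤ L * hh δ₁ j := Nat.le_mul_of_pos_right L hh1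
      have ha1 : 1 ≤ a := Nat.one_le_two_pow.trans ha
      refine ⟨⟨⟨hk1, hk2.le⟩, ⟨ha1, ?_⟩, hL, ?_⟩, hj₀, hL, ha, hb, hk2⟩
      · exact (Nat.le_add_right _ _).trans (hb.trans hZb)
      · exact (hLh.trans (Nat.le_add_left _ _)).trans (hb.trans hZb)
    have h4 := hM3 k hki (j, a, L) hmem
    have hsub : (((B k (j, a, L)).filter (fun q => q ∈ M) : Finset ℕ) : Set ℕ) ⊆ {m ∈ M | Good δ x H m} := by
      intro m hm
      rw [mem_coe, mem_filter, hB] at hm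
      obtain ⟨hm1, hm2⟩ := hm
      unfold Gm at hm1
      rw [mem_filter] at hm1
      obtain ⟨hm1, hm3, hm4, hm5⟩ := hm1
      have hm6 : (m : ℝ) ≤ 2 * 2 ^ ((1 / 2 - τ) * j) := by
        refine hm3.trans ?_
        apply mul_le_mul_of_nonneg_left _ (by norm_num)
        apply Real.rpow_le_rpow_of_exponent_le (by norm_num)
        apply mul_le_mul_of_nonneg_right _ (Nat.cast_nonneg _)
        linarith
      refine ⟨hm2, good_of_Gm hτ4 hγ hc₁ hd0 hd1 hd2 hd3 (by linarith) x3 hH0 hxa hbx ?_ h2 h3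
        (mem_Rz.1 hm1).1 hm6 hm4 hm5⟩
      rw [Nat.add_sub_cancel_left]
      exact hl
    have hfin : {m ∈ M | Good δ x H m}.Finite := by
      have hb2 : (2 : ℝ) ≤ x := by linarith
      have hbig : {m ∈ M | Good δ x H m} ⊆ {m ∈ M | m ≤ ⌊x⌋₊} := by
        rintro m ⟨hm, hg, _⟩
        refine ⟨hm, Nat.le_floor ?_⟩
        refine hg.trans ?_
        calc x ^ (1 / 2 - 2 * δ) ≤ x ^ (1 : ℝ) := Real.rpow_le_rpow_of_exponent_le (by linarith) (by linarith)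
          _ = x := Real.rpow_one x
      exact (hM2 ⌊x⌋₊ (Nat.le_floor (by push_cast; exact hb2))).1.subset hbig
    have h5 := Set.ncard_le_ncard hsub hfin
    rw [Set.ncard_coe_finset] at h5
    have h6 : (2 : ℝ) ^ k ≤ ({m ∈ M | Good δ x H m}.ncard : ℝ) := by exact_mod_cast h4.trans h5
    refine le_trans ?_ h6
    have h7 : Real.log x ≤ 2 * 2 ^ k := by
      have h8 := Real.log_le_log hx0 h3.le
      rw [Real.log_pow] at h8
      have h9 := Real.log_two_lt_d9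
      have h10 : ((j + 1 : ℕ) : ℝ) ≤ 2 * 2 ^ k := by
        have : j + 1 ≤ 2 * 2 ^ k := by rw [pow_succ] at hk2; omega
        exact_mod_cast this
      have h11 : (0 : ℝ) ≤ ((j + 1 : ℕ) : ℝ) := Nat.cast_nonneg _
      nlinarith
    have h12 : 0 ≤ Real.log x := Real.log_nonneg (by linarith)
    nlinarith

end Pool.Agent.Q253.Host
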