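import Pool.Agent.W544.MO.Ho
import Pool.Agent.W761.MO.BTR
import Pool.Agent.W161.MO.MR3
import Pool.Agent.W565.MOFS
import Pool.Agent.Q253.Cov.Rough

/-!
# Many multipliers `m` with primes in `(a / m, b / m]`, for intervals of length `x ^ (1 / 2 - δ)`
-/

set_option autoImplicit false

namespace Pool.Agent.Q253.Host

open Finset Filter
open Pool.Agent.W76.MO
open Pool.Agent.Q253.Cov

theorem hosts : Hosts := Pool.Agent.W544.MO.main Pool.Agent.W761.MO.btr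
  (Pool.Agent.W161.MO.midRange Pool.Agent.W565.MOFS.FS)

open scoped Classical in
theorem hosts_long {τ γ c δ : ℝ} {j : ℕ}
    (H : ∀ a : ℕ, 2 ^ j ≤ a → a ≤ 2 ^ (j + 1) →
      c * hh δ j / j ≤ (((Ioc a (a + hh δ j)).filter (HostNum τ γ j)).card : ℝ)) (a : ℕ) (ha : 2 ^ j ≤ a) :
    ∀ L : ℕ, a + L * hh δ j ≤ 2 ^ (j + 1) →
      c * ((L * hh δ j : ℕ) : ℝ) / j ≤ (((Ioc a (a + L * hh δ j)).filter (HostNum τ γ j)).card : ℝ) := by
  classical
  intro L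
  induction L with
  | zero => intro _; simp
  | succ L ih =>
    intro hL
    obtain ⟨h, hh'⟩ : ∃ h, h = hh δ j := ⟨_, rfl⟩
    rw [← hh'] at hL ih H ⊢
    have e1 : (L + 1) * h = L * h + h := by ring
    have h1 := ih (by rw [e1] at hL; omega)
    have h2 := H (a + L * h) (by omega) (by rw [e1] at hL; omega)
    have h3 : ((Ioc a (a + L * h)).filter (HostNum τ γ j)) ∪ ((Ioc (a + L * h) (a + L * h + h)).filter (HostNum τ γ j)) ⊆
        (Ioc a (a + (L + 1) * h)).filter (HostNum τ γ j) := by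
      rw [e1]
      intro n hn
      simp only [mem_union, mem_filter, mem_Ioc] at hn ⊢
      rcases hn with hn | hn
      · exact ⟨⟨hn.1.1, by omega⟩, hn.2⟩
      · exact ⟨⟨by omega, by omega⟩, hn.2⟩
    have h4 : Disjoint ((Ioc a (a + L * h)).filter (HostNum τ γ j))
        ((Ioc (a + L * h) (a + L * h + h)).filter (HostNum τ γ j)) := by
      rw [disjoint_left]
      intro n hn hn2
      simp only [mem_filter, mem_Ioc] at hn hn2
      omega
    have h5 : (((Ioc a (a + L * h)).filter (HostNum τ γ j)).card : ℝ) +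
        (((Ioc (a + L * h) (a + L * h + h)).filter (HostNum τ γ j)).card : ℝ) ≤
        (((Ioc a (a + (L + 1) * h)).filter (HostNum τ γ j)).card : ℝ) := by
      have := card_le_card h3
      rw [card_union_of_disjoint h4] at this
      exact_mod_cast this
    have h6 : c * (((L + 1) * h : ℕ) : ℝ) / j = c * ((L * h : ℕ) : ℝ) / j + c * (h : ℝ) / j := by
      push_cast
      ring
    rw [h6]
    linarith

open Classical in
/-- the multipliers `m` with the expected number of primes in `(a / m, b / m]` -/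
noncomputable def Gm (τ γ c₁ : ℝ) (e k j a b : ℕ) : Finset ℕ :=
  (Rz e (2 ^ 2 ^ k)).filter (fun m : ℕ => (m : ℝ) ≤ 2 * 2 ^ ((1 / 2 - τ) * j) ∧ Rough ((2 : ℝ) ^ (γ * j)) m ∧
    c₁ * (((b - a : ℕ) : ℝ) / m) / j ≤ (((Ioc (a / m) (b / m) : Finset ℕ).filter Nat.Prime).card : ℝ))

/-- **Many multipliers.** -/
theorem host_rich : ∃ τ γ δ₁ c₁ c₂ : ℝ, 0 < τ ∧ 0 < γ ∧ 0 < δ₁ ∧ δ₁ < τ ∧ δ₁ ≤ 1 / 8 ∧ 0 < c₁ ∧ 0 < c₂ ∧
    ∃ e : ℕ, 2 ≤ e ∧ ∃ j₀ : ℕ, ∀ j : ℕ, j₀ ≤ j → ∀ a L : ℕ, 1 ≤ L → 2 ^ j ≤ a →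
      a + L * hh δ₁ j ≤ 2 ^ (j + 1) → ∀ k : ℕ, 2 ^ k ≤ j → j < 2 ^ (k + 1) →
        c₂ ≤ ∑ m ∈ Gm τ γ c₁ e k j a (a + L * hh δ₁ j), (1 : ℝ) / m := by
  classical
  obtain ⟨τ, γ, c, δ₀, hτ, hγ, hc, hδ₀, H⟩ := hosts
  obtain ⟨δ₁, hδ₁⟩ : ∃ δ₁ : ℝ, δ₁ = min δ₀ (min (τ / 2) (1 / 8)) := ⟨_, rfl⟩
  have hd0 : 0 < δ₁ := by rw [hδ₁]; positivity
  have hdδ : δ₁ ≤ δ₀ := by rw [hδ₁]; exact min_le_left _ _
  have hdτ : δ₁ ≤ τ / 2 := by rw [hδ₁]; exact (min_le_right _ _).trans (min_le_left _ _)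
  have hd8 : δ₁ ≤ 1 / 8 := by rw [hδ₁]; exact (min_le_right _ _).trans (min_le_right _ _)
  obtain ⟨i₀, hi₀, H⟩ := H δ₁ hd0 hdδ
  obtain ⟨C, hC, i₂, hi₂, hB⟩ := Pool.Agent.W761.MO.btr (1 / 2) (τ / 4) (by norm_num) (by positivity)
  obtain ⟨e, he⟩ : ∃ e : ℕ, max 2 (1 / γ) ≤ e := exists_nat_ge _
  have he2 : 2 ≤ e := by
    have := (le_max_left (2 : ℝ) (1 / γ)).trans he
    exact_mod_cast this
  have heγ : 1 ≤ γ * e := by
    have := (le_max_right (2 : ℝ) (1 / γ)).trans he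
    rw [div_le_iff₀ hγ] at this
    linarith
  obtain ⟨M, hM, Z₁, hmert⟩ := mertE e (by omega)
  obtain ⟨W, hW⟩ : ∃ W : ℝ, W = Real.exp M := ⟨_, rfl⟩
  have hW0 : 0 < W := by rw [hW]; exact Real.exp_pos _
  obtain ⟨j₁, hj₁⟩ : ∃ j₁ : ℕ, 8 / τ ≤ j₁ := exists_nat_ge _
  refine ⟨τ, γ, δ₁, c / (2 * W), c / (4 * C), hτ, hγ, hd0, by linarith, hd8, by positivity, by positivity, e, he2,
    max (max i₀ i₂) (max (max j₁ 2) (2 * Z₁)), ?_⟩
  intro j hj a L hL ha hb k hk1 hk2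
  have hji₀ : i₀ ≤ j := ((le_max_left _ _).trans (le_max_left _ _)).trans hj
  have hji₂ : i₂ ≤ j := ((le_max_right _ _).trans (le_max_left _ _)).trans hj
  have hjj₁ : j₁ ≤ j := (((le_max_left _ _).trans (le_max_left _ _)).trans (le_max_right _ _)).trans hj
  have hj2 : 2 ≤ j := (((le_max_right _ _).trans (le_max_left _ _)).trans (le_max_right _ _)).trans hj
  have hjZ : 2 * Z₁ ≤ j := ((le_max_right _ _).trans (le_max_right _ _)).trans hj
  have hj0 : (0 : ℝ) < j := by exact_mod_cast (by omega : 0 < j)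
  have hτj : 8 ≤ τ * j := by
    have h1 : (8 : ℝ) / τ ≤ j := hj₁.trans (by exact_mod_cast hjj₁)
    rw [div_le_iff₀ hτ] at h1
    linarith
  obtain ⟨Z, hZ⟩ : ∃ Z : ℕ, Z = 2 ^ 2 ^ k := ⟨_, rfl⟩
  have hZ1 : Z₁ ≤ Z := by
    rw [hZ]
    have h1 : Z₁ ≤ 2 ^ k := by
      rw [pow_succ] at hk2
      omega
    exact h1.trans Nat.lt_two_pow_self.le
  obtain ⟨h, hh'⟩ : ∃ h, h = hh δ₁ j := ⟨_, rfl⟩
  obtain ⟨b, hbb⟩ : ∃ b, b = a + L * h := ⟨_, rfl⟩
  have hlong := hosts_long (fun a => H j hji₀ a) a ha L hb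
  rw [← hh', ← hbb] at hlong hb ⊢
  obtain ⟨ℓ, hℓ⟩ : ∃ ℓ : ℕ, ℓ = L * h := ⟨_, rfl⟩
  have hℓb : b = a + ℓ := by rw [hbb, hℓ]
  rw [← hℓ] at hlong
  have hh1 : 1 ≤ h := by rw [hh']; exact Nat.one_le_two_pow
  have hℓ1 : 1 ≤ ℓ := by rw [hℓ]; exact Nat.mul_pos hL hh1
  have hℓ0 : (0 : ℝ) < ℓ := by exact_mod_cast hℓ1
  -- the length of the interval
  have hhlow : (2 : ℝ) ^ ((1 / 2 - δ₁) * j - 1) ≤ ℓ := by
    have h1 : (2 : ℝ) ^ ((1 / 2 - δ₁) * j - 1) ≤ h := by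
      rw [hh']
      unfold hh
      push_cast
      rw [← Real.rpow_natCast]
      apply Real.rpow_le_rpow_of_exponent_le (by norm_num)
      have := Nat.lt_floor_add_one ((1 / 2 - δ₁) * (j : ℝ))
      linarith
    refine h1.trans ?_
    rw [hℓ]
    exact_mod_cast Nat.le_mul_of_pos_left h hL
  have hba : b - a = ℓ := by omega
  -- the pool
  obtain ⟨Ω, hΩ⟩ : ∃ Ω : Finset ℕ, Ω = (Rz e Z).filter (fun m : ℕ => (m : ℝ) ≤ 2 * 2 ^ ((1 / 2 - τ) * j) ∧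
    Rough ((2 : ℝ) ^ (γ * j)) m) := ⟨_, rfl⟩
  obtain ⟨J, hJ⟩ : ∃ J : Finset ℕ, J = (Ioc a b).filter (HostNum τ γ j) := ⟨_, rfl⟩
  have hex : ∀ n : ℕ, ∃ m : ℕ, n ∈ J → ∃ q : ℕ, n = m * q ∧ q.Prime ∧
      (2 : ℝ) ^ ((1 / 2 + τ) * j) ≤ q ∧ 1 < m ∧ Squarefree m ∧ Rough ((2 : ℝ) ^ (γ * j)) m := by
    intro n
    by_cases hn : n ∈ J
    · rw [hJ, mem_filter] at hn
      obtain ⟨m, q, hq⟩ := hn.2
      exact ⟨m, fun _ => ⟨q, hq⟩⟩
    · exact ⟨0, fun h => absurd h hn⟩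
  choose g hg using hex
  have hgΩ : ∀ n ∈ J, g n ∈ Ω := by
    intro n hn
    obtain ⟨q, hq1, hq2, hq3, hq4, hq5, hq6⟩ := hg n hn
    rw [hJ, mem_filter, mem_Ioc] at hn
    rw [hΩ, mem_filter]
    have hn2 : n ≤ 2 ^ (j + 1) := hn.1.2.trans hb
    refine ⟨mem_Rz.2 ⟨hq4, ?_, hq5, ?_⟩, ?_, hq6⟩
    · have h1 : g n ≤ n := by
        calc g n = g n * 1 := (mul_one _).symm
          _ ≤ g n * q := Nat.mul_le_mul_left _ hq2.one_le
          _ = n := hq1.symm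
      calc g n ≤ 2 ^ (j + 1) := h1.trans hn2
        _ ≤ 2 ^ (2 ^ k * 2) := Nat.pow_le_pow_right (by norm_num) (by rw [pow_succ] at hk2; omega)
        _ = Z ^ 2 := by rw [hZ, pow_mul]
        _ ≤ Z ^ e := Nat.pow_le_pow_right (by rw [hZ]; positivity) he2
    · intro p hp hpm
      have h1 := hq6 p hp hpm
      have h2 : (Z : ℝ) ≤ (p : ℝ) ^ e := by
        calc (Z : ℝ) = (2 : ℝ) ^ ((2 ^ k : ℕ) : ℝ) := by rw [hZ, Real.rpow_natCast]; push_cast; ring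
          _ ≤ (2 : ℝ) ^ (γ * j * e) := by
              apply Real.rpow_le_rpow_of_exponent_le (by norm_num)
              have h3 : ((2 ^ k : ℕ) : ℝ) ≤ j := by exact_mod_cast hk1
              nlinarith
          _ = ((2 : ℝ) ^ (γ * j)) ^ e := by rw [Real.rpow_mul (by norm_num), Real.rpow_natCast]
          _ ≤ (p : ℝ) ^ e := pow_le_pow_left₀ (by positivity) h1 e
      exact_mod_cast h2
    · have h1 : ((g n : ℕ) : ℝ) * (2 : ℝ) ^ ((1 / 2 + τ) * j) ≤ 2 ^ ((j : ℝ) + 1) := by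
        calc ((g n : ℕ) : ℝ) * (2 : ℝ) ^ ((1 / 2 + τ) * j) ≤ (g n : ℝ) * q := mul_le_mul_of_nonneg_left hq3 (Nat.cast_nonneg _)
          _ = n := by exact_mod_cast hq1.symm
          _ ≤ ((2 ^ (j + 1) : ℕ) : ℝ) := by exact_mod_cast hn2
          _ = 2 ^ ((j : ℝ) + 1) := by
              rw [show ((j : ℝ) + 1) = ((j + 1 : ℕ) : ℝ) by push_cast; ring, Real.rpow_natCast]
              push_cast
              ring
      have h2 : (2 : ℝ) ^ ((j : ℝ) + 1) = 2 * 2 ^ ((1 / 2 - τ) * j) * 2 ^ ((1 / 2 + τ) * j) := by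
        rw [mul_assoc, ← Real.rpow_add (by norm_num), Real.rpow_add (by norm_num), Real.rpow_one]
        have : (1 / 2 - τ) * (j : ℝ) + (1 / 2 + τ) * j = j := by ring
        rw [this]
        ring
      rw [h2] at h1
      exact le_of_mul_le_mul_right h1 (by positivity)
  have hΩ0 : ∀ m ∈ Ω, 0 < m := by
    intro m hm
    rw [hΩ, mem_filter] at hm
    have := (mem_Rz.1 hm.1).1
    omega
  have hΩs : ∑ m ∈ Ω, (1 : ℝ) / m ≤ W := by
    calc ∑ m ∈ Ω, (1 : ℝ) / m ≤ ∑ m ∈ Rz e Z, (1 : ℝ) / m := by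
          rw [hΩ]
          exact sum_le_sum_of_subset_of_nonneg (filter_subset _ _) fun m _ _ => by positivity
      _ ≤ _ := sum_Rz e Z
      _ ≤ W := by rw [hW]; exact Real.exp_le_exp.2 (hmert Z hZ1)
  -- the fibres
  have hfib : ∀ m ∈ Ω, ((J.filter (fun n => g n = m)).image (fun n => n / m)) ⊆
      (Ioc (a / m) (b / m) : Finset ℕ).filter (fun q : ℕ => q.Prime ∧ (2 : ℝ) ^ ((1 / 2 + τ) * j) ≤ q) := by
    intro m hm q hq
    obtain ⟨n, hn, rfl⟩ := mem_image.1 hq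
    rw [mem_filter] at hn
    obtain ⟨q, hq1, hq2, hq3, hq4, _, _⟩ := hg n hn.1
    rw [hn.2] at hq1 hq4
    have hn1 := hn.1
    rw [hJ, mem_filter, mem_Ioc] at hn1
    have h1 : n / m = q := by rw [hq1]; exact Nat.mul_div_cancel_left q (by omega)
    rw [h1, mem_filter, mem_Ioc]
    refine ⟨⟨?_, ?_⟩, hq2, hq3⟩
    · rw [Nat.div_lt_iff_lt_mul (by omega), mul_comm, ← hq1]
      exact hn1.1.1
    · rw [Nat.le_div_iff_mul_le (by omega), mul_comm, ← hq1]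
      exact hn1.1.2
  have hinj : ∀ m ∈ Ω, Set.InjOn (fun n : ℕ => n / m) ((J.filter (fun n => g n = m) : Finset ℕ) : Set ℕ) := by
    intro m hm n₁ hn₁ n₂ hn₂ h12
    rw [mem_coe, mem_filter] at hn₁ hn₂
    obtain ⟨q₁, hq₁, _, _, hm1, _⟩ := hg n₁ hn₁.1
    obtain ⟨q₂, hq₂, _⟩ := hg n₂ hn₂.1
    rw [hn₁.2] at hq₁ hm1
    rw [hn₂.2] at hq₂
    have e1 : n₁ / m = q₁ := by rw [hq₁]; exact Nat.mul_div_cancel_left q₁ (by omega)
    have e2 : n₂ / m = q₂ := by rw [hq₂]; exact Nat.mul_div_cancel_left q₂ (by omega)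
    have h13 : n₁ / m = n₂ / m := h12
    rw [e1, e2] at h13
    rw [hq₁, hq₂, h13]
  have hcardle : ∀ m ∈ Ω, ((J.filter (fun n => g n = m)).card : ℝ) ≤
      (((Ioc (a / m) (b / m) : Finset ℕ).filter (fun q : ℕ => q.Prime ∧ (2 : ℝ) ^ ((1 / 2 + τ) * j) ≤ q)).card : ℝ) := by
    intro m hm
    rw [← card_image_of_injOn (hinj m hm)]
    exact_mod_cast card_le_card (hfib m hm)
  have hup : ∀ m ∈ Ω, ((J.filter (fun n => g n = m)).card : ℝ) ≤ (2 * C * ℓ / j) / m := by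
    intro m hm
    refine (hcardle m hm).trans ?_
    have hm0 := hΩ0 m hm
    have hm0r : (0 : ℝ) < m := by exact_mod_cast hm0
    have hmle : (m : ℝ) ≤ 2 * 2 ^ ((1 / 2 - τ) * j) := by
      rw [hΩ, mem_filter] at hm
      exact hm.2.1
    obtain ⟨L', hL'⟩ : ∃ L' : ℕ, L' = ℓ / m + 1 := ⟨_, rfl⟩
    have hL1 : (ℓ : ℝ) / m ≤ L' := by
      rw [hL', div_le_iff₀ hm0r]
      have := Nat.lt_div_mul_add (a := ℓ) hm0
      have h2 : ℓ ≤ (ℓ / m + 1) * m := by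
        rw [add_mul, one_mul]
        exact this.le
      exact_mod_cast h2
    have hLlow : (2 : ℝ) ^ ((τ - δ₁) * j - 2) ≤ (ℓ : ℝ) / m := by
      rw [le_div_iff₀ hm0r]
      calc (2 : ℝ) ^ ((τ - δ₁) * j - 2) * m ≤ 2 ^ ((τ - δ₁) * j - 2) * (2 * 2 ^ ((1 / 2 - τ) * j)) :=
            mul_le_mul_of_nonneg_left hmle (by positivity)
        _ = 2 ^ ((1 / 2 - δ₁) * j - 1) := by
            rw [show (2 : ℝ) ^ ((τ - δ₁) * j - 2) * (2 * 2 ^ ((1 / 2 - τ) * j)) =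
              2 ^ ((τ - δ₁) * j - 2) * (2 ^ (1 : ℝ) * 2 ^ ((1 / 2 - τ) * j)) by rw [Real.rpow_one],
              ← Real.rpow_add (by norm_num), ← Real.rpow_add (by norm_num)]
            congr 1
            ring
        _ ≤ ℓ := hhlow
    have hLσ : (2 : ℝ) ^ (τ / 4 * j) ≤ L' := by
      refine le_trans ?_ (hLlow.trans hL1)
      apply Real.rpow_le_rpow_of_exponent_le (by norm_num)
      nlinarith
    have hone : 1 ≤ (ℓ : ℝ) / m := by
      refine le_trans ?_ hLlow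
      apply Real.one_le_rpow (by norm_num)
      nlinarith
    have hLup : (L' : ℝ) ≤ 2 * (ℓ / m) := by
      have h1 : ((ℓ / m : ℕ) : ℝ) ≤ (ℓ : ℝ) / m := Nat.cast_div_le
      rw [hL']
      push_cast
      linarith
    have hsub : (Ioc (a / m) (b / m) : Finset ℕ).filter (fun q : ℕ => q.Prime ∧ (2 : ℝ) ^ ((1 / 2 + τ) * j) ≤ q) ⊆
        (Ioc (a / m) (a / m + L') : Finset ℕ).filter (fun n : ℕ => Rough ((2 : ℝ) ^ (1 / 2 * (j : ℝ))) n) := by
      intro q hq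
      rw [mem_filter, mem_Ioc] at hq ⊢
      refine ⟨⟨hq.1.1, ?_⟩, ?_⟩
      · refine hq.1.2.trans ?_
        rw [hL', hℓb]
        have h1 : (a + ℓ) / m ≤ a / m + ℓ / m + 1 := by
          have ha1 := Nat.lt_div_mul_add (a := a) hm0
          have hl1 := Nat.lt_div_mul_add (a := ℓ) hm0
          have h3 : a + ℓ < (a / m + ℓ / m + 1 + 1) * m := by nlinarith
          have := (Nat.div_lt_iff_lt_mul hm0).2 h3
          omega
        omega
      · intro p hp hpq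
        have h1 : p = q := (Nat.prime_dvd_prime_iff_eq hp hq.2.1).1 hpq
        rw [h1]
        refine le_trans ?_ hq.2.2
        apply Real.rpow_le_rpow_of_exponent_le (by norm_num)
        nlinarith
    have h7 := hB j hji₂ (a / m) L' hLσ
    calc _ ≤ (((Ioc (a / m) (a / m + L') : Finset ℕ).filter (fun n : ℕ => Rough ((2 : ℝ) ^ (1 / 2 * (j : ℝ))) n)).card : ℝ) := by
          exact_mod_cast card_le_card hsub
      _ ≤ C * L' / j := h7
      _ ≤ C * (2 * (ℓ / m)) / j := by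
          apply div_le_div_of_nonneg_right _ hj0.le
          exact mul_le_mul_of_nonneg_left hLup hC.le
      _ = _ := by ring
  have hr := rich J Ω g (2 * C * ℓ / j) W (by positivity) hW0 hΩ0 hΩs hgΩ hup
  rw [← hJ] at hlong
  have hlow : c / (4 * C) ≤ (J.card : ℝ) / (2 * (2 * C * ℓ / j)) := by
    rw [le_div_iff₀ (by positivity)]
    refine le_trans (le_of_eq ?_) hlong
    field_simp
    ring
  refine hlow.trans (hr.trans ?_)
  apply sum_le_sum_of_subset_of_nonneg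
  · intro m hm
    rw [mem_filter] at hm
    have hm1 := hm.1
    rw [hΩ, mem_filter] at hm1
    unfold Gm
    rw [mem_filter, ← hZ, hba]
    refine ⟨hm1.1, hm1.2.1, hm1.2.2, ?_⟩
    have hm0r : (0 : ℝ) < m := by exact_mod_cast hΩ0 m hm.1
    calc c / (2 * W) * ((ℓ : ℝ) / m) / j = (c * ℓ / j) / (2 * W * m) := by field_simp
      _ ≤ (J.card : ℝ) / (2 * W * m) := div_le_div_of_nonneg_right hlong (by positivity)
      _ ≤ _ := hm.2
      _ ≤ _ := hcardle m hm.1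
      _ ≤ _ := by
          have : (Ioc (a / m) (b / m) : Finset ℕ).filter (fun q : ℕ => q.Prime ∧ (2 : ℝ) ^ ((1 / 2 + τ) * j) ≤ q) ⊆
              (Ioc (a / m) (b / m) : Finset ℕ).filter Nat.Prime := by
            intro q hq
            rw [mem_filter] at hq ⊢
            exact ⟨hq.1, hq.2.1⟩
          exact_mod_cast card_le_card this
  · intro m _ _
    positivity

end Pool.Agent.Q253.Host
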